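import Pool.Agent.Helper97.Fuchs.Base

/-!
# Decoding the insertion: expectations with values in `ℝ≥0∞` and the three bad events
-/

namespace Pool.Agent.Helper97.Fuchs

open MeasureTheory Matrix UpperHalfPlane Filter Topology
open scoped MatrixGroups ENNReal BigOperators

noncomputable section

set_option linter.unusedSectionVars false
set_option linter.unusedVariables false

variable {ι : Type} [Fintype ι]

/-! ### expectations in `ℝ≥0∞` -/

/-- expectation over words with values in `ℝ≥0∞` -/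
def ExE (w : ι → ℝ) (n : ℕ) (F : (Fin n → ι) → ℝ≥0∞) : ℝ≥0∞ :=
  ∑ u, ENNReal.ofReal (wt w u) * F u

lemma ExE_succ {w : ι → ℝ} (hw : ∀ i, 0 ≤ w i) (n : ℕ) (F : (Fin (n + 1) → ι) → ℝ≥0∞) :
    ExE w (n + 1) F = ∑ i, ENNReal.ofReal (w i) * ExE w n (fun u => F (Fin.cons i u)) := by
  unfold ExE
  rw [← (Fin.consEquiv (fun _ : Fin (n + 1) => ι)).sum_comp, Fintype.sum_prod_type]
  refine Finset.sum_congr rfl fun i _ => ?_
  rw [Finset.mul_sum]
  refine Finset.sum_congr rfl fun u _ => ?_
  rw [wt_succ]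
  simp only [Fin.consEquiv, Equiv.coe_fn_mk, Fin.cons_zero, Fin.cons_succ]
  rw [ENNReal.ofReal_mul (hw i), mul_assoc]

lemma ExE_mono (w : ι → ℝ) {n : ℕ} {F G : (Fin n → ι) → ℝ≥0∞} (h : ∀ u, F u ≤ G u) :
    ExE w n F ≤ ExE w n G :=
  Finset.sum_le_sum fun u _ => by gcongr; exact h u

lemma ExE_add (w : ι → ℝ) {n : ℕ} (F G : (Fin n → ι) → ℝ≥0∞) :
    ExE w n (fun u => F u + G u) = ExE w n F + ExE w n G := by
  unfold ExE
  rw [← Finset.sum_add_distrib]
  exact Finset.sum_congr rfl fun u _ => mul_add _ _ _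

lemma ExE_mul_left (w : ι → ℝ) {n : ℕ} (c : ℝ≥0∞) (F : (Fin n → ι) → ℝ≥0∞) :
    ExE w n (fun u => c * F u) = c * ExE w n F := by
  unfold ExE
  rw [Finset.mul_sum]
  exact Finset.sum_congr rfl fun u _ => by ring

lemma ExE_tsum (w : ι → ℝ) {n : ℕ} {κ : Type} (F : κ → (Fin n → ι) → ℝ≥0∞) :
    ExE w n (fun u => ∑' a, F a u) = ∑' a, ExE w n (F a) := by
  unfold ExE
  rw [Summable.tsum_finsetSum (fun _ _ => ENNReal.summable)]
  exact Finset.sum_congr rfl fun u _ => ENNReal.tsum_mul_left.symm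

lemma ExE_ofReal {w : ι → ℝ} (hw : ∀ i, 0 ≤ w i) {n : ℕ} (F : (Fin n → ι) → ℝ)
    (hF : ∀ u, 0 ≤ F u) : ExE w n (fun u => ENNReal.ofReal (F u)) = ENNReal.ofReal (Ex w n F) := by
  unfold ExE Ex
  rw [ENNReal.ofReal_sum_of_nonneg fun u _ => mul_nonneg (wt_nonneg hw u) (hF u)]
  exact Finset.sum_congr rfl fun u _ => (ENNReal.ofReal_mul (wt_nonneg hw u)).symm

lemma ExE_const {w : ι → ℝ} (hw : IsWt w) (n : ℕ) (c : ℝ≥0∞) : ExE w n (fun _ => c) = c := by
  unfold ExE
  rw [← Finset.sum_mul, ← ENNReal.ofReal_sum_of_nonneg fun u _ => wt_nonneg hw.nonneg u,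
    sum_wt hw.sum, ENNReal.ofReal_one, one_mul]

/-- a bound for all words gives a bound for the expectation -/
lemma ExE_le {w : ι → ℝ} (hw : IsWt w) {n : ℕ} {F : (Fin n → ι) → ℝ≥0∞} {c : ℝ≥0∞}
    (h : ∀ u, F u ≤ c) : ExE w n F ≤ c := (ExE_mono w h).trans (ExE_const hw n c).le

/-! ### the three bad events -/

/-- `a` is hit by an insertion during the first `K` steps -/
def Bad1 (A : ι → SL(2, ℝ)) (N : ℝ) :
    (K n : ℕ) → (ℕ → Bool) → (Fin n → ι) → SL(2, ℝ) → Prop
  | 0, _, _, _, _ => False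
  | _ + 1, 0, _, _, _ => False
  | K + 1, n + 1, e, u, a => (e 0 = true ∧ (a⁻¹ * A (u 0)) 1 0 = 0) ∨
      Bad1 A N K n (fun k => e (k + 1)) (fun k => u k.succ)
        ((A (u 0) * (if e 0 then U N else 1))⁻¹ * a)

/-- the part of `Sx` from time `K` on -/
def Tl (A : ι → SL(2, ℝ)) (N : ℝ) : (K n : ℕ) → (ℕ → Bool) → (Fin n → ι) → ℂ → ℝ
  | 0, n, e, u, x => Sx A N n e u x
  | _ + 1, 0, _, _, _ => 0
  | K + 1, n + 1, e, u, x => Tl A N K n (fun k => e (k + 1)) (fun k => u k.succ)
        (lin (A (u 0) * (if e 0 then U N else 1))⁻¹ x)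

/-- at some time before `K` the chain is in the ball of radius `Y` and has a large sum in the
future -/
def Bad3 (A : ι → SL(2, ℝ)) (N Y T : ℝ) : (K n : ℕ) → (ℕ → Bool) → (Fin n → ι) → ℂ → Prop
  | 0, _, _, _, _ => False
  | _ + 1, 0, e, u, x => (‖x‖ ≤ Y ∧ T ≤ Sx A N 0 e u x)
  | K + 1, n + 1, e, u, x => (‖x‖ ≤ Y ∧ T ≤ Sx A N (n + 1) e u x) ∨
      Bad3 A N Y T K n (fun k => e (k + 1)) (fun k => u k.succ)
        (lin (A (u 0) * (if e 0 then U N else 1))⁻¹ x)

lemma Sx_nonneg (A : ι → SL(2, ℝ)) (N : ℝ) (n : ℕ) (e : ℕ → Bool) (u : Fin n → ι) (x : ℂ) :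
    0 ≤ Sx A N n e u x := by
  induction n generalizing e x with
  | zero => simp only [Sx]; positivity
  | succ n ih =>
    simp only [Sx]
    have := ih (fun k => e (k + 1)) (fun k => u k.succ)
      (lin (A (u 0) * (if e 0 then U N else 1))⁻¹ x)
    positivity

lemma Sx_ge (A : ι → SL(2, ℝ)) (N : ℝ) (n : ℕ) (e : ℕ → Bool) (u : Fin n → ι) (x : ℂ) :
    1 / ‖x‖ ≤ Sx A N n e u x := by
  cases n with
  | zero => simp only [Sx]; exact le_rfl
  | succ n =>
    simp only [Sx]
    have := Sx_nonneg A N n (fun k => e (k + 1)) (fun k => u k.succ)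
      (lin (A (u 0) * (if e 0 then U N else 1))⁻¹ x)
    linarith

lemma Tl_nonneg (A : ι → SL(2, ℝ)) (N : ℝ) (K n : ℕ) (e : ℕ → Bool) (u : Fin n → ι) (x : ℂ) :
    0 ≤ Tl A N K n e u x := by
  induction K generalizing n e x with
  | zero => simp only [Tl]; exact Sx_nonneg ..
  | succ K ih =>
    cases n with
    | zero => simp [Tl]
    | succ n => simp only [Tl]; exact ih ..

/-- a hit before time `K` or a large tail -/
lemma hit_cases (A : ι → SL(2, ℝ)) (hU : U 1 ∈ grp A) (N : ℕ)
    (hsh : ∀ g ∈ grp A, (g 1 0 = 0 ∧ |g 0 0| = 1) ∨ 1 ≤ |g 1 0|)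
    (K n : ℕ) (e : ℕ → Bool) (u : Fin n → ι) (a : SL(2, ℝ)) (ha : a ∈ grp A)
    (h : 1 ≤ hits A N n e u a) :
    Bad1 A N K n e u a ∨ 1 ≤ Tl A N K n e u (lin a 1) := by
  induction n generalizing K e a with
  | zero => simp [hits] at h
  | succ n ih =>
    have ha' : (A (u 0) * (if e 0 then U N else 1))⁻¹ * a ∈ grp A := by
      refine mul_mem (inv_mem (mul_mem (mem_grp A _) ?_)) ha
      split_ifs
      · exact U_nat_mem hU N
      · exact one_mem _
    by_cases h1 : e 0 = true ∧ (a⁻¹ * A (u 0)) 1 0 = 0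
    · cases K with
      | succ K => exact Or.inl (by simp only [Bad1]; exact Or.inl h1)
      | zero =>
        right
        simp only [Tl, Sx]
        obtain ⟨h2, h3⟩ := h1
        have hg : a⁻¹ * A (u 0) ∈ grp A := mul_mem (inv_mem ha) (mem_grp A _)
        have h4 : |(a⁻¹ * A (u 0)) 0 0| = 1 := by
          rcases hsh _ hg with h | h
          · exact h.2
          · rw [h3] at h; simp at h; linarith
        set x₁ := lin (A (u 0) * (if e 0 = true then U N else 1))⁻¹ (lin a 1) with hx₁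
        have h5 : ‖x₁‖ = 1 := by
          have e1 : lin (a⁻¹ * A (u 0)) (lin (U N) x₁) = 1 := by
            rw [hx₁, if_pos h2, ← lin_mul, ← lin_mul, ← lin_mul]
            have : a⁻¹ * A (u 0) * U ↑N * (A (u 0) * U ↑N)⁻¹ * a = 1 := by group
            rw [this, lin_one]
          have e2 := congrArg Complex.im e1
          have e3 := congrArg Complex.re e1
          rw [lin_im, h3, lin_U] at e2
          rw [lin_re, lin_U] at e3
          simp only [zero_mul, zero_add, Complex.one_im, Complex.one_re] at e2 e3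
          have hdet := det_eq (a⁻¹ * A (u 0))
          rw [h3, mul_zero, sub_zero] at hdet
          have e4 : (a⁻¹ * A (u 0)) 1 1 ≠ 0 := by
            intro h0
            rw [h0, mul_zero] at hdet
            exact zero_ne_one hdet
          have e5 : x₁.im = 0 := (mul_eq_zero.1 e2).resolve_left e4
          rw [e5, mul_zero, mul_zero, add_zero, add_zero] at e3
          have e6 : |x₁.re| = 1 := by
            have := congrArg abs e3
            rwa [abs_mul, h4, one_mul, abs_one] at this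
          have e7 : x₁ = (x₁.re : ℂ) := Complex.ext rfl (by simpa using e5)
          rw [e7, Complex.norm_real, Real.norm_eq_abs, e6]
        have h6 := Sx_ge A N n (fun k => e (k + 1)) (fun k => u k.succ) x₁
        rw [h5] at h6
        have : 0 ≤ 1 / ‖lin a 1‖ := by positivity
        linarith
    · have h2 : 1 ≤ hits A N n (fun k => e (k + 1)) (fun k => u k.succ)
          ((A (u 0) * (if e 0 then U N else 1))⁻¹ * a) := by
        simp only [hits] at h
        rw [if_neg h1, zero_add] at h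
        exact h
      cases K with
      | zero =>
        right
        rcases ih 0 _ _ _ ha' h2 with h | h
        · simp [Bad1] at h
        · simp only [Tl, Sx] at h ⊢
          rw [lin_mul] at h
          have : 0 ≤ 1 / ‖lin a 1‖ := by positivity
          linarith
      | succ K =>
        rcases ih K _ _ _ ha' h2 with h | h
        · exact Or.inl (by simp only [Bad1]; exact Or.inr h)
        · right
          simp only [Tl]
          rw [lin_mul] at h
          exact h

/-- a large sum: the chain enters the ball of radius `Y` before time `K`, or the tail is large -/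
lemma sum_cases (A : ι → SL(2, ℝ)) (N Y T : ℝ) (hY : 1 ≤ Y) (hT : 0 ≤ T) (K n : ℕ)
    (e : ℕ → Bool) (u : Fin n → ι) (x : ℂ) (h : T + K / Y + 1 ≤ Sx A N n e u x) :
    Bad3 A N Y T K n e u x ∨ 1 ≤ Tl A N K n e u x := by
  induction K generalizing n e x with
  | zero =>
    right
    simp only [Tl]
    simp at h
    linarith
  | succ K ih =>
    have hK : (0 : ℝ) ≤ ((K + 1 : ℕ) : ℝ) / Y := by positivity
    by_cases hx : ‖x‖ ≤ Y
    · left
      cases n with
      | zero => simp only [Bad3]; exact ⟨hx, by linarith⟩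
      | succ n => simp only [Bad3]; exact Or.inl ⟨hx, by linarith⟩
    · rw [not_le] at hx
      have h1 : 1 / ‖x‖ ≤ 1 / Y := one_div_le_one_div_of_le (by linarith) hx.le
      have h2 : 1 / Y ≤ 1 := by rw [div_le_one (by linarith)]; exact hY
      cases n with
      | zero =>
        exfalso
        simp only [Sx] at h
        have : (0 : ℝ) < ((K + 1 : ℕ) : ℝ) / Y := by positivity
        linarith
      | succ n =>
        have h3 : T + K / Y + 1 ≤ Sx A N n (fun k => e (k + 1)) (fun k => u k.succ)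
            (lin (A (u 0) * (if e 0 then U N else 1))⁻¹ x) := by
          simp only [Sx] at h
          have : ((K + 1 : ℕ) : ℝ) / Y = K / Y + 1 / Y := by push_cast; ring
          linarith
        rcases ih n _ _ _ h3 with h | h
        · exact Or.inl (by simp only [Bad3]; exact Or.inr h)
        · exact Or.inr (by simp only [Tl]; exact h)

end

end Pool.Agent.Helper97.Fuchs
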