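import Pool.Agent.Helper30.Fuchs.Dec1

/-!
# Decoding the insertion: expected weights of the bad events
-/

namespace Pool.Agent.Helper97.Fuchs

open MeasureTheory Matrix UpperHalfPlane Filter Topology
open scoped MatrixGroups ENNReal BigOperators

noncomputable section

set_option linter.unusedSectionVars false
set_option linter.unusedVariables false

variable {ι : Type} [Fintype ι]

/-- number of insertions before time `K` -/
def cnt (K : ℕ) (e : ℕ → Bool) : ℝ≥0∞ := ∑ k ∈ Finset.range K, if e k = true then 1 else 0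

lemma cnt_succ (K : ℕ) (e : ℕ → Bool) :
    cnt (K + 1) e = cnt K (fun k => e (k + 1)) + if e 0 = true then 1 else 0 := by
  unfold cnt
  rw [Finset.sum_range_succ']

lemma Sparse.shift {M : ℕ} {e : ℕ → Bool} (he : Sparse M e) (j : ℕ) :
    Sparse M (fun k => e (j + k)) := by
  intro m
  have := he (j + m)
  simpa [add_assoc] using this

lemma Sparse.shift1 {M : ℕ} {e : ℕ → Bool} (he : Sparse M e) : Sparse M (fun k => e (k + 1)) := by
  have := he.shift 1
  simpa [add_comm] using this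

lemma cnt_le {M : ℕ} {e : ℕ → Bool} (he : Sparse M e) (c : ℕ) :
    cnt (c * M) e ≤ ((2 * c : ℕ) : ℝ≥0∞) := by
  induction c generalizing e with
  | zero => simp [cnt]
  | succ c ih =>
    have h1 : cnt ((c + 1) * M) e = cnt M e + cnt (c * M) (fun k => e (M + k)) := by
      unfold cnt
      rw [show (c + 1) * M = M + c * M by ring, Finset.sum_range_add]
    have h2 : cnt M e ≤ 2 := by
      unfold cnt
      have := he 0
      simp only [zero_add] at this
      rw [Finset.sum_boole]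
      exact_mod_cast this
    rw [h1]
    calc cnt M e + cnt (c * M) (fun k => e (M + k)) ≤ 2 + ((2 * c : ℕ) : ℝ≥0∞) :=
          add_le_add h2 (ih (he.shift M))
      _ = ((2 * (c + 1) : ℕ) : ℝ≥0∞) := by push_cast; ring

lemma ite_or_le {P Q R : Prop} [Decidable P] [Decidable Q] [Decidable R] (h : R → P ∨ Q)
    (c : ℝ≥0∞) :
    (if R then c else 0) ≤ (if P then c else 0) + if Q then c else 0 := by
  by_cases hR : R
  · rcases h hR with hP | hQ
    · simp [hR, hP]
    · simp [hR, hQ]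
  · simp [hR]

lemma ite_mono_prop {P R : Prop} [Decidable P] [Decidable R] (h : R → P) (c : ℝ≥0∞) :
    (if R then c else 0) ≤ (if P then c else 0) := by
  by_cases hR : R
  · simp [hR, h hR]
  · simp [hR]

open Classical in
lemma bad1_weight (A : ι → SL(2, ℝ)) (hU : U 1 ∈ grp A) (N : ℕ) {C : ℝ≥0∞}
    (h3 : ∀ g ∈ grp A, (∑' a : grp A,
        if ((a : SL(2, ℝ))⁻¹ * g) 1 0 = 0 then ENNReal.ofReal (om (a : SL(2, ℝ))) else 0) ≤ C)
    (K n : ℕ) (e : ℕ → Bool) (u : Fin n → ι) (g : SL(2, ℝ)) (hg : g ∈ grp A) :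
    (∑' a : grp A, if Bad1 A N K n e u (g⁻¹ * (a : SL(2, ℝ))) then
      ENNReal.ofReal (om (a : SL(2, ℝ))) else 0) ≤ cnt K e * C := by
  induction K generalizing n e g with
  | zero => simp [Bad1]
  | succ K ih =>
    cases n with
    | zero => simp [Bad1]
    | succ n =>
      have hins : A (u 0) * (if e 0 = true then U (N : ℝ) else 1) ∈ grp A := by
        refine mul_mem (mem_grp A _) ?_
        split_ifs
        · exact U_nat_mem hU N
        · exact one_mem _
      have e1 : ∀ a : grp A, (if Bad1 A N (K + 1) (n + 1) e u (g⁻¹ * (a : SL(2, ℝ))) then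
            ENNReal.ofReal (om (a : SL(2, ℝ))) else 0) ≤
          (if e 0 = true ∧ ((a : SL(2, ℝ))⁻¹ * (g * A (u 0))) 1 0 = 0 then
            ENNReal.ofReal (om (a : SL(2, ℝ))) else 0) +
          (if Bad1 A N K n (fun k => e (k + 1)) (fun k => u k.succ)
            ((g * (A (u 0) * (if e 0 = true then U (N : ℝ) else 1)))⁻¹ * (a : SL(2, ℝ))) then
            ENNReal.ofReal (om (a : SL(2, ℝ))) else 0) := by
        intro a
        refine ite_or_le (fun h => ?_) _
        simp only [Bad1] at h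
        rw [_root_.mul_inv_rev, inv_inv, mul_assoc, ← mul_assoc _ g⁻¹, ← _root_.mul_inv_rev g] at h
        exact h
      refine (ENNReal.tsum_le_tsum e1).trans ?_
      rw [ENNReal.tsum_add, cnt_succ, add_mul, add_comm]
      refine add_le_add (ih n _ _ _ (mul_mem hg hins)) ?_
      by_cases h0 : e 0 = true
      · simp only [h0, true_and, if_true, one_mul]
        exact h3 _ (mul_mem hg (mem_grp A _))
      · simp [h0]

/-! ### the tail -/

/-- expected inverse norm of the chain at time `k` -/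
def Pk (w : ι → ℝ) (A : ι → SL(2, ℝ)) (N : ℝ) (e : ℕ → Bool) (x : ℂ) (k : ℕ) : ℝ :=
  Ex w k (fun u => 1 / ‖lin (wordIns A N k e u)⁻¹ x‖)

lemma Pk_zero (w : ι → ℝ) (A : ι → SL(2, ℝ)) (N : ℝ) (e : ℕ → Bool) (x : ℂ) :
    Pk w A N e x 0 = 1 / ‖x‖ := by
  simp [Pk, Ex_zero, wordIns]

lemma Pk_succ (w : ι → ℝ) (A : ι → SL(2, ℝ)) (N : ℝ) (e : ℕ → Bool) (x : ℂ) (k : ℕ) :
    Pk w A N e x (k + 1) = ∑ i, w i * Pk w A N (fun k => e (k + 1))
      (lin (A i * (if e 0 = true then U N else 1))⁻¹ x) k := by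
  unfold Pk
  rw [Ex_succ]
  refine Finset.sum_congr rfl fun i _ => ?_
  congr 1
  refine Ex_congr w fun u => ?_
  simp only [wordIns, Fin.cons_zero, Fin.cons_succ]
  rw [_root_.mul_inv_rev, lin_mul]

lemma Ex_Sx (w : ι → ℝ) (hw : IsWt w) (A : ι → SL(2, ℝ)) (N : ℝ) (n : ℕ) (e : ℕ → Bool) (x : ℂ) :
    Ex w n (fun u => Sx A N n e u x) = ∑ j ∈ Finset.range (n + 1), Pk w A N e x j := by
  induction n generalizing e x with
  | zero => simp [Ex_zero, Sx, Pk_zero]
  | succ n ih =>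
    rw [Ex_succ, Finset.sum_range_succ', Pk_zero]
    simp only [Sx, Fin.cons_zero, Fin.cons_succ, Pk_succ]
    rw [Finset.sum_comm]
    have e1 : ∀ i, w i * Ex w n (fun u => 1 / ‖x‖ + Sx A N n (fun k => e (k + 1)) (fun k => u k)
        (lin (A i * (if e 0 = true then U N else 1))⁻¹ x)) = w i * (1 / ‖x‖) +
        ∑ j ∈ Finset.range (n + 1), w i * Pk w A N (fun k => e (k + 1))
          (lin (A i * (if e 0 = true then U N else 1))⁻¹ x) j := by
      intro i
      rw [Ex_add, Ex_const hw.sum, mul_add, ih, Finset.mul_sum]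
    rw [Finset.sum_congr rfl fun i _ => e1 i, Finset.sum_add_distrib, ← Finset.sum_mul, hw.sum]
    ring

lemma Ex_Tl (w : ι → ℝ) (hw : IsWt w) (A : ι → SL(2, ℝ)) (N : ℝ) (K n : ℕ) (e : ℕ → Bool)
    (x : ℂ) : Ex w n (fun u => Tl A N K n e u x) =
      ∑ j ∈ Finset.range (n + 1 - K), Pk w A N e x (K + j) := by
  induction K generalizing n e x with
  | zero =>
    simp only [Tl, zero_add, Nat.sub_zero]
    exact Ex_Sx w hw A N n e x
  | succ K ih =>
    cases n with
    | zero => simp [Tl, Ex_zero]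
    | succ n =>
      rw [Ex_succ]
      simp only [Tl, Fin.cons_zero, Fin.cons_succ]
      have e1 : ∀ i, w i * Ex w n (fun u => Tl A N K n (fun k => e (k + 1)) (fun k => u k)
          (lin (A i * (if e 0 = true then U N else 1))⁻¹ x)) =
          ∑ j ∈ Finset.range (n + 1 - K), w i * Pk w A N (fun k => e (k + 1))
            (lin (A i * (if e 0 = true then U N else 1))⁻¹ x) (K + j) := by
        intro i
        rw [ih, Finset.mul_sum]
      rw [Finset.sum_congr rfl fun i _ => e1 i, Finset.sum_comm,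
        show n + 1 + 1 - (K + 1) = n + 1 - K by omega]
      refine Finset.sum_congr rfl fun j _ => ?_
      rw [show K + 1 + j = K + j + 1 by omega, Pk_succ]

lemma one_le_norm_lin {Γ : Subgroup SL(2, ℝ)}
    (hsh : ∀ g ∈ Γ, (g 1 0 = 0 ∧ |g 0 0| = 1) ∨ 1 ≤ |g 1 0|) (g : SL(2, ℝ)) (hg : g ∈ Γ) :
    1 ≤ ‖lin g 1‖ := by
  rcases hsh g hg with h | h
  · have := Complex.abs_re_le_norm (lin g 1)
    rw [lin_re] at this
    simp at this
    linarith [h.2]
  · have := Complex.abs_im_le_norm (lin g 1)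
    rw [lin_im] at this
    simp at this
    linarith

lemma Ex_Tl_le (w : ι → ℝ) (hw : IsWt w) (A : ι → SL(2, ℝ)) (hU : U 1 ∈ grp A)
    (hsh : ∀ g ∈ grp A, (g 1 0 = 0 ∧ |g 0 0| = 1) ∨ 1 ≤ |g 1 0|) (N : ℕ) {s ρ D : ℝ}
    (hs : s ≤ 1) (hρ : 0 < ρ) (hρ1 : ρ < 1) (hD : 0 ≤ D) (e : ℕ → Bool) (a : SL(2, ℝ))
    (ha : a ∈ grp A)
    (h : ∀ n, Ex w n (fun u => ‖lin (wordIns A N n e u)⁻¹ (lin a 1)‖ ^ (-s)) ≤ D * ρ ^ n)
    (K n : ℕ) :
    Ex w n (fun u => Tl A N K n e u (lin a 1)) ≤ D * ρ ^ K / (1 - ρ) := by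
  rw [Ex_Tl w hw]
  have h1 : ∀ k, Pk w A N e (lin a 1) k ≤ D * ρ ^ k := by
    intro k
    refine (Ex_mono hw.nonneg fun u => ?_).trans (h k)
    have h2 : 1 ≤ ‖lin (wordIns A N k e u)⁻¹ (lin a 1)‖ := by
      rw [← lin_mul]
      exact one_le_norm_lin hsh _ (mul_mem (inv_mem (wordIns_mem_grp A hU N k e u)) ha)
    rw [one_div, ← Real.rpow_neg_one]
    exact Real.rpow_le_rpow_of_exponent_le h2 (by linarith)
  calc ∑ j ∈ Finset.range (n + 1 - K), Pk w A N e (lin a 1) (K + j)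
      ≤ ∑ j ∈ Finset.range (n + 1 - K), D * ρ ^ K * ρ ^ j :=
        Finset.sum_le_sum fun j _ => (h1 _).trans (le_of_eq (by rw [pow_add]; ring))
    _ = D * ρ ^ K * ∑ j ∈ Finset.range (n + 1 - K), ρ ^ j := by rw [Finset.mul_sum]
    _ ≤ D * ρ ^ K * (1 - ρ)⁻¹ := by
        refine mul_le_mul_of_nonneg_left ?_ (by positivity)
        rw [← tsum_geometric_of_lt_one hρ.le hρ1]
        exact (summable_geometric_of_lt_one hρ.le hρ1).sum_le_tsum _ fun _ _ => by positivity
    _ = D * ρ ^ K / (1 - ρ) := by rw [div_eq_mul_inv]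

open Classical in
lemma bad2_weight (w : ι → ℝ) (hw : IsWt w) (A : ι → SL(2, ℝ)) (hU : U 1 ∈ grp A)
    (hsh : ∀ g ∈ grp A, (g 1 0 = 0 ∧ |g 0 0| = 1) ∨ 1 ≤ |g 1 0|) (N : ℕ) {s ρ D R : ℝ}
    (hs : s ≤ 1) (hρ : 0 < ρ) (hρ1 : ρ < 1) (hD : 0 ≤ D) (e : ℕ → Bool)
    (h : ∀ a ∈ grp A, ∀ n, Ex w n (fun u => ‖lin (wordIns A N n e u)⁻¹ (lin a 1)‖ ^ (-s))
      ≤ D * ρ ^ n) {C' : ℝ≥0∞}
    (h1 : (∑' a : grp A, if ‖lin (a : SL(2, ℝ)) 1‖ ≤ R then
      ENNReal.ofReal (om (a : SL(2, ℝ))) else 0) ≤ C') (K n : ℕ) :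
    ExE w n (fun u => ∑' a : grp A, if ‖lin (a : SL(2, ℝ)) 1‖ ≤ R ∧
        1 ≤ Tl A N K n e u (lin (a : SL(2, ℝ)) 1) then ENNReal.ofReal (om (a : SL(2, ℝ))) else 0)
      ≤ C' * ENNReal.ofReal (D * ρ ^ K / (1 - ρ)) := by
  rw [ExE_tsum]
  refine le_trans ?_ (mul_le_mul_left h1 _)
  rw [← ENNReal.tsum_mul_right]
  refine ENNReal.tsum_le_tsum fun a => ?_
  by_cases hR : ‖lin (a : SL(2, ℝ)) 1‖ ≤ R
  · simp only [hR, true_and, if_true]
    calc ExE w n (fun u => if 1 ≤ Tl A N K n e u (lin (a : SL(2, ℝ)) 1) then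
          ENNReal.ofReal (om (a : SL(2, ℝ))) else 0)
        ≤ ExE w n (fun u => ENNReal.ofReal (om (a : SL(2, ℝ))) *
          ENNReal.ofReal (Tl A N K n e u (lin (a : SL(2, ℝ)) 1))) := by
          refine ExE_mono w fun u => ?_
          split_ifs with h2
          · calc ENNReal.ofReal (om (a : SL(2, ℝ))) = ENNReal.ofReal (om (a : SL(2, ℝ))) * 1 :=
                (mul_one _).symm
              _ ≤ _ := by
                gcongr
                rw [ENNReal.one_le_ofReal]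
                exact h2
          · exact zero_le
      _ = ENNReal.ofReal (om (a : SL(2, ℝ))) *
          ENNReal.ofReal (Ex w n (fun u => Tl A N K n e u (lin (a : SL(2, ℝ)) 1))) := by
          rw [ExE_mul_left, ExE_ofReal hw.nonneg _ fun u => Tl_nonneg ..]
      _ ≤ _ := by
          gcongr
          exact Ex_Tl_le w hw A hU hsh N hs hρ hρ1 hD e a a.2 (h a a.2) K n
  · simp only [hR, false_and, if_false, zero_mul]
    exact (ExE_const hw n 0).le

/-! ### large sums -/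

open Classical in
lemma large_weight (w : ι → ℝ) (hw : IsWt w) (A : ι → SL(2, ℝ)) (N : ℕ) {c Y T : ℝ}
    (hc : 0 < c) {M : ℕ}
    (h : ∀ e : ℕ → Bool, Sparse M e → ∀ a ∈ grp A, ∀ n,
      Ex w n (fun u => Real.exp (c * Sx A N n e u (lin a 1))) ≤ 2) {C' : ℝ≥0∞}
    (h1 : (∑' a : grp A, if ‖lin (a : SL(2, ℝ)) 1‖ ≤ Y then
      ENNReal.ofReal (om (a : SL(2, ℝ))) else 0) ≤ C') (n : ℕ) (e : ℕ → Bool) (he : Sparse M e) :
    ExE w n (fun u => ∑' a : grp A, ENNReal.ofReal (om (a : SL(2, ℝ))) *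
        (if ‖lin (a : SL(2, ℝ)) 1‖ ≤ Y ∧ T ≤ Sx A N n e u (lin (a : SL(2, ℝ)) 1) then 1 else 0))
      ≤ C' * ENNReal.ofReal (2 * Real.exp (-(c * T))) := by
  rw [ExE_tsum]
  refine le_trans ?_ (mul_le_mul_left h1 _)
  rw [← ENNReal.tsum_mul_right]
  refine ENNReal.tsum_le_tsum fun a => ?_
  by_cases hR : ‖lin (a : SL(2, ℝ)) 1‖ ≤ Y
  · simp only [hR, true_and, if_true]
    rw [ExE_mul_left]
    gcongr
    calc ExE w n (fun u => if T ≤ Sx A N n e u (lin (a : SL(2, ℝ)) 1) then 1 else 0)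
        ≤ ExE w n (fun u => ENNReal.ofReal (Real.exp (-(c * T)) *
          Real.exp (c * Sx A N n e u (lin (a : SL(2, ℝ)) 1)))) := by
          refine ExE_mono w fun u => ?_
          split_ifs with h2
          · rw [ENNReal.one_le_ofReal, ← Real.exp_add]
            apply Real.one_le_exp
            nlinarith
          · exact zero_le
      _ = ENNReal.ofReal (Real.exp (-(c * T)) *
          Ex w n (fun u => Real.exp (c * Sx A N n e u (lin (a : SL(2, ℝ)) 1)))) := by
          rw [ExE_ofReal hw.nonneg _ fun u => by positivity, Ex_mul_left]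
      _ ≤ _ := by
          apply ENNReal.ofReal_le_ofReal
          rw [mul_comm]
          exact mul_le_mul_of_nonneg_right (h e he a a.2 n) (Real.exp_pos _).le
  · simp only [hR, false_and, if_false, mul_zero, zero_mul]
    exact (ExE_const hw n 0).le

open Classical in
lemma bad3_weight (w : ι → ℝ) (hw : IsWt w) (A : ι → SL(2, ℝ)) (hU : U 1 ∈ grp A) (N : ℕ)
    {Y T : ℝ} {M : ℕ} {C B : ℝ≥0∞}
    (h2 : ∀ g ∈ grp A, ∀ H : ℂ → ℝ≥0∞,
        ∑' a : grp A, ENNReal.ofReal (om (a : SL(2, ℝ))) * H (lin (g⁻¹ * (a : SL(2, ℝ))) 1)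
          ≤ C * ∑' a : grp A, ENNReal.ofReal (om (a : SL(2, ℝ))) * H (lin (a : SL(2, ℝ)) 1))
    (hB : ∀ (n : ℕ) (e : ℕ → Bool), Sparse M e →
      ExE w n (fun u => ∑' a : grp A, ENNReal.ofReal (om (a : SL(2, ℝ))) *
        (if ‖lin (a : SL(2, ℝ)) 1‖ ≤ Y ∧ T ≤ Sx A N n e u (lin (a : SL(2, ℝ)) 1) then 1 else 0))
      ≤ B)
    (K n : ℕ) (e : ℕ → Bool) (he : Sparse M e) (g : SL(2, ℝ)) (hg : g ∈ grp A) :
    ExE w n (fun u => ∑' a : grp A, if Bad3 A N Y T K n e u (lin (g⁻¹ * (a : SL(2, ℝ))) 1) then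
      ENNReal.ofReal (om (a : SL(2, ℝ))) else 0) ≤ K * (C * B) := by
  have key : ∀ (n : ℕ) (e : ℕ → Bool), Sparse M e → ∀ g ∈ grp A,
      ExE w n (fun u => ∑' a : grp A, if ‖lin (g⁻¹ * (a : SL(2, ℝ))) 1‖ ≤ Y ∧
        T ≤ Sx A N n e u (lin (g⁻¹ * (a : SL(2, ℝ))) 1) then
        ENNReal.ofReal (om (a : SL(2, ℝ))) else 0) ≤ C * B := by
    intro n e he g hg
    refine le_trans ?_ (mul_le_mul_right (hB n e he) C)
    rw [← ExE_mul_left]
    refine ExE_mono w fun u => ?_
    refine le_trans (le_of_eq ?_) (h2 g hg (fun z => if ‖z‖ ≤ Y ∧ T ≤ Sx A N n e u z then 1 else 0))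
    refine tsum_congr fun a => ?_
    simp only [mul_ite, mul_one, mul_zero]
  induction K generalizing n e g with
  | zero => simp [Bad3, ExE]
  | succ K ih =>
    cases n with
    | zero =>
      refine le_trans (ExE_mono w fun u => ENNReal.tsum_le_tsum fun a => ite_mono_prop
        (fun h => ?_) _) ((key 0 e he g hg).trans ?_)
      · simpa only [Bad3] using h
      calc C * B = 1 * (C * B) := (one_mul _).symm
        _ ≤ ((K + 1 : ℕ) : ℝ≥0∞) * (C * B) := by
          gcongr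
          exact_mod_cast Nat.succ_le_succ (Nat.zero_le K)
    | succ n =>
      have e1 : ∀ u : Fin (n + 1) → ι, (∑' a : grp A,
          if Bad3 A N Y T (K + 1) (n + 1) e u (lin (g⁻¹ * (a : SL(2, ℝ))) 1) then
            ENNReal.ofReal (om (a : SL(2, ℝ))) else 0) ≤
          (∑' a : grp A, if ‖lin (g⁻¹ * (a : SL(2, ℝ))) 1‖ ≤ Y ∧
            T ≤ Sx A N (n + 1) e u (lin (g⁻¹ * (a : SL(2, ℝ))) 1) then
            ENNReal.ofReal (om (a : SL(2, ℝ))) else 0) +
          ∑' a : grp A, if Bad3 A N Y T K n (fun k => e (k + 1)) (fun k => u k.succ)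
            (lin ((g * (A (u 0) * (if e 0 = true then U (N : ℝ) else 1)))⁻¹ *
              (a : SL(2, ℝ))) 1) then
            ENNReal.ofReal (om (a : SL(2, ℝ))) else 0 := by
        intro u
        rw [← ENNReal.tsum_add]
        refine ENNReal.tsum_le_tsum fun a => ite_or_le (fun h => ?_) _
        simp only [Bad3] at h
        rw [← lin_mul, ← mul_assoc, ← _root_.mul_inv_rev g] at h
        exact h
      refine (ExE_mono w e1).trans ?_
      rw [ExE_add]
      have e2 : (((K + 1 : ℕ) : ℝ≥0∞)) * (C * B) = C * B + K * (C * B) := by push_cast; ring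
      rw [e2]
      refine add_le_add (key (n + 1) e he g hg) ?_
      rw [ExE_succ hw.nonneg]
      simp only [Fin.cons_zero, Fin.cons_succ]
      calc ∑ i, ENNReal.ofReal (w i) * ExE w n (fun u => ∑' a : grp A,
            if Bad3 A N Y T K n (fun k => e (k + 1)) (fun k => u k)
            (lin ((g * (A i * (if e 0 = true then U (N : ℝ) else 1)))⁻¹ *
              (a : SL(2, ℝ))) 1) then
            ENNReal.ofReal (om (a : SL(2, ℝ))) else 0)
          ≤ ∑ i, ENNReal.ofReal (w i) * (K * (C * B)) := by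
            refine Finset.sum_le_sum fun i _ => ?_
            gcongr
            refine ih n _ he.shift1 _ (mul_mem hg (mul_mem (mem_grp A _) ?_))
            split_ifs
            · exact U_nat_mem hU N
            · exact one_mem _
        _ = K * (C * B) := by
            rw [← Finset.sum_mul, ← ENNReal.ofReal_sum_of_nonneg fun i _ => hw.nonneg i, hw.sum,
              ENNReal.ofReal_one, one_mul]

end

end Pool.Agent.Helper97.Fuchs
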