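import Pool.Agent.Helper30.Fuchs.Dec2

/-!
# Decoding the insertion: the expected normalising constant
-/

namespace Pool.Agent.Helper97.Fuchs

open MeasureTheory Matrix UpperHalfPlane Filter Topology
open scoped MatrixGroups ENNReal BigOperators

noncomputable section

set_option linter.unusedSectionVars false
set_option linter.unusedVariables false

variable {ι : Type} [Fintype ι]

/-- the decoding region -/
def Reg (R N : ℝ) (X a : SL(2, ℝ)) : Prop := ‖lin a 1‖ ≤ R ∧ N / 2 ≤ |rp (a⁻¹ * X) - rp a⁻¹|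

/-- the normalising constant -/
def ZE (A : ι → SL(2, ℝ)) (R N : ℝ) (X : SL(2, ℝ)) : ℝ≥0∞ :=
  ∑' a : grp A, open Classical in
    if Reg R N X (a : SL(2, ℝ)) then ENNReal.ofReal (om (a : SL(2, ℝ))) else 0

lemma poly_exp_bdd (m : ℕ) {α : ℝ} (hα : 0 < α) :
    ∃ B : ℝ, 0 ≤ B ∧ ∀ N : ℕ, ((N : ℝ) + 2) ^ m * Real.exp (-(α * N)) ≤ B := by
  refine ⟨(m.factorial : ℝ) / α ^ m * Real.exp (2 * α), by positivity, fun N => ?_⟩
  have h1 := Real.pow_div_factorial_le_exp (α * (N + 2)) (by positivity) m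
  rw [mul_pow, div_le_iff₀ (by positivity)] at h1
  have h2 : ((N : ℝ) + 2) ^ m ≤ (m.factorial : ℝ) / α ^ m * Real.exp (α * (N + 2)) := by
    rw [div_mul_eq_mul_div, le_div_iff₀ (by positivity)]
    linarith
  calc ((N : ℝ) + 2) ^ m * Real.exp (-(α * N))
      ≤ ((m.factorial : ℝ) / α ^ m * Real.exp (α * (N + 2))) * Real.exp (-(α * N)) :=
        mul_le_mul_of_nonneg_right h2 (Real.exp_pos _).le
    _ = (m.factorial : ℝ) / α ^ m * Real.exp (2 * α) := by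
        rw [mul_assoc, ← Real.exp_add]
        congr 2
        ring

open Classical in
/-- the normalising constant is at most the weight of the three bad events -/
lemma ZE_le (A : ι → SL(2, ℝ)) (hU : U 1 ∈ grp A)
    (hsh : ∀ g ∈ grp A, (g 1 0 = 0 ∧ |g 0 0| = 1) ∨ 1 ≤ |g 1 0|) {C₁ : ℝ} (hC₁ : 1 ≤ C₁)
    (hdisp : ∀ (N n : ℕ) (e : ℕ → Bool) (u : Fin n → ι), ∀ a ∈ grp A,
      |rp (a⁻¹ * wordIns A N n e u) - rp a⁻¹ - N * hits A N n e u a|
        ≤ C₁ * Sx A N n e u (lin a 1)) (R : ℝ) (N K n : ℕ) (hN : 4 * C₁ ≤ N)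
    (e : ℕ → Bool) (u : Fin n → ι) :
    ZE A R N (wordIns A N n e u) ≤
      (∑' a : grp A, if Bad1 A N K n e u (1⁻¹ * (a : SL(2, ℝ))) then
        ENNReal.ofReal (om (a : SL(2, ℝ))) else 0) +
      ((∑' a : grp A, if ‖lin (a : SL(2, ℝ)) 1‖ ≤ R ∧
        1 ≤ Tl A N K n e u (lin (a : SL(2, ℝ)) 1) then ENNReal.ofReal (om (a : SL(2, ℝ))) else 0) +
      ∑' a : grp A, if Bad3 A N (K + 1) (N / (2 * C₁) - 2) K n e u
        (lin (1⁻¹ * (a : SL(2, ℝ))) 1) then ENNReal.ofReal (om (a : SL(2, ℝ))) else 0) := by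
  rw [← ENNReal.tsum_add, ← ENNReal.tsum_add]
  unfold ZE
  refine ENNReal.tsum_le_tsum fun a => ?_
  refine (ite_or_le (P := Bad1 A N K n e u (1⁻¹ * (a : SL(2, ℝ))))
    (Q := (‖lin (a : SL(2, ℝ)) 1‖ ≤ R ∧ 1 ≤ Tl A N K n e u (lin (a : SL(2, ℝ)) 1)) ∨
      Bad3 A N (K + 1) (N / (2 * C₁) - 2) K n e u (lin (1⁻¹ * (a : SL(2, ℝ))) 1)) ?_ _).trans ?_
  · rintro ⟨h1, h2⟩
    rw [inv_one, one_mul]
    have h3 := hdisp N n e u a a.2
    by_cases h4 : 1 ≤ hits A N n e u a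
    · rcases hit_cases A hU N hsh K n e u a a.2 h4 with h | h
      · exact Or.inl h
      · exact Or.inr (Or.inl ⟨h1, h⟩)
    · have h5 : hits A N n e u a = 0 := by omega
      rw [h5] at h3
      simp only [Nat.cast_zero, mul_zero, sub_zero] at h3
      have h6 : (N : ℝ) / 2 ≤ C₁ * Sx A N n e u (lin (a : SL(2, ℝ)) 1) := h2.trans h3
      have h7 : (N : ℝ) / (2 * C₁) ≤ Sx A N n e u (lin (a : SL(2, ℝ)) 1) := by
        rw [div_le_iff₀ (by linarith)]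
        linarith
      have h8 : (2 : ℝ) ≤ N / (2 * C₁) := by
        rw [le_div_iff₀ (by linarith)]
        linarith
      have h9 : (K : ℝ) / (K + 1) ≤ 1 := by
        rw [div_le_one (by positivity)]
        linarith
      rcases sum_cases A N (K + 1) (N / (2 * C₁) - 2) (by
        have : (0 : ℝ) ≤ K := Nat.cast_nonneg K
        linarith) (by linarith) K n e u (lin (a : SL(2, ℝ)) 1) (by linarith) with h | h
      · exact Or.inr (Or.inr h)
      · exact Or.inr (Or.inl ⟨h1, h⟩)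
  · exact add_le_add le_rfl (ite_or_le (fun h => h) _)

/-- the expected normalising constant is bounded -/
theorem EZ_bdd (w : ι → ℝ) (hw : IsWt w) (A : ι → SL(2, ℝ)) (hU : U 1 ∈ grp A)
    (hsh : ∀ g ∈ grp A, (g 1 0 = 0 ∧ |g 0 0| = 1) ∨ 1 ≤ |g 1 0|) {C₁ : ℝ} (hC₁ : 1 ≤ C₁)
    (hdisp : ∀ (N n : ℕ) (e : ℕ → Bool) (u : Fin n → ι), ∀ a ∈ grp A,
      |rp (a⁻¹ * wordIns A N n e u) - rp a⁻¹ - N * hits A N n e u a|
        ≤ C₁ * Sx A N n e u (lin a 1))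
    {c C s ρ : ℝ} {N₀ : ℕ} (hc : 0 < c) (hC : 1 ≤ C) (hs : s ≤ 1) (hρ : 0 < ρ)
    (hρ1 : ρ < 1)
    (hch : ∀ N M : ℕ, N₀ ≤ N → N ≤ M → ∀ e : ℕ → Bool, Sparse M e → ∀ n : ℕ, ∀ g ∈ grp A,
        Ex w n (fun u => Real.exp (c * Sx A N n e u (lin g 1))) ≤ 2 ∧
        Ex w n (fun u => ‖lin (wordIns A N n e u)⁻¹ (lin g 1)‖ ^ (-s))
          ≤ C * ((N : ℝ) + 2) ^ (4 : ℕ) * ρ ^ n)
    {Cr : ℝ} (hCr : 1 ≤ Cr)
    (hi : ∀ R : ℝ, 1 ≤ R → (∑' a : grp A, open Classical in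
        if ‖lin (a : SL(2, ℝ)) 1‖ ≤ R then ENNReal.ofReal (om (a : SL(2, ℝ))) else 0)
          ≤ ENNReal.ofReal (Cr * R ^ 8))
    (hii : ∀ g ∈ grp A, ∀ H : ℂ → ℝ≥0∞,
        ∑' a : grp A, ENNReal.ofReal (om (a : SL(2, ℝ))) * H (lin (g⁻¹ * (a : SL(2, ℝ))) 1)
          ≤ ENNReal.ofReal Cr * ∑' a : grp A, ENNReal.ofReal (om (a : SL(2, ℝ))) *
              H (lin (a : SL(2, ℝ)) 1))
    (hiii : ∀ g ∈ grp A, (∑' a : grp A, open Classical in
        if ((a : SL(2, ℝ))⁻¹ * g) 1 0 = 0 then ENNReal.ofReal (om (a : SL(2, ℝ))) else 0)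
          ≤ ENNReal.ofReal Cr) (L₀ : ℝ) (hL₀ : 1 ≤ L₀) (b : ℕ) (hb : 1 ≤ b) :
    ∃ B : ℝ, 0 ≤ B ∧ ∃ N₁ : ℕ, ∀ N : ℕ, N₁ ≤ N → ∀ e : ℕ → Bool, Sparse (N ^ b) e → ∀ n : ℕ,
      ExE w n (fun u => ZE A (L₀ ^ (2 * N ^ b)) N (wordIns A N n e u)) ≤ ENNReal.ofReal B := by
  classical
  -- the number of windows in the head
  obtain ⟨k, hk⟩ : ∃ k : ℕ, L₀ ^ 16 * ρ ^ k ≤ 1 / 2 := by
    obtain ⟨k, hk⟩ := exists_pow_lt_of_lt_one (show (0 : ℝ) < 1 / (2 * L₀ ^ 16) by positivity) hρ1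
    refine ⟨k, ?_⟩
    rw [lt_div_iff₀ (by positivity)] at hk
    linarith
  set α : ℝ := c / (2 * C₁) with hα
  have hα0 : 0 < α := by positivity
  obtain ⟨B₁, hB₁, hB₁'⟩ := poly_exp_bdd 4 (Real.log_pos one_lt_two)
  obtain ⟨B₂, hB₂, hB₂'⟩ := poly_exp_bdd (9 * b) hα0
  set Q₁ : ℝ := (2 * k : ℕ) * Cr with hQ₁
  set Q₂ : ℝ := Cr * C / (1 - ρ) * B₁ with hQ₂
  set Q₃ : ℝ := Cr * Cr * 2 * Real.exp (2 * c) * ((k : ℝ) + 1) ^ 9 * B₂ with hQ₃
  have h1ρ : 0 < 1 - ρ := by linarith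
  refine ⟨Q₁ + (Q₂ + Q₃), by positivity, max N₀ (Nat.ceil (4 * C₁) + 1), fun N hN e he n => ?_⟩
  have hN₀ : N₀ ≤ N := (le_max_left _ _).trans hN
  have hN4 : 4 * C₁ ≤ N := by
    have h1 : Nat.ceil (4 * C₁) ≤ N := by
      have := (le_max_right _ _).trans hN
      omega
    exact (Nat.le_ceil _).trans (by exact_mod_cast h1)
  have hN1 : 1 ≤ N := by
    have := (le_max_right _ _).trans hN
    omega
  set M := N ^ b with hM
  have hNM : N ≤ M := by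
    calc N = N ^ 1 := (pow_one N).symm
      _ ≤ N ^ b := Nat.pow_le_pow_right hN1 hb
  set K := k * M with hK
  set R : ℝ := L₀ ^ (2 * M) with hR
  have hR1 : 1 ≤ R := one_le_pow₀ hL₀
  -- the three parts
  refine (ExE_mono w fun u => ZE_le A hU hsh hC₁ hdisp R N K n hN4 e u).trans ?_
  rw [ExE_add, ExE_add, ENNReal.ofReal_add (by positivity) (by positivity),
    ENNReal.ofReal_add (by positivity) (by positivity)]
  refine add_le_add ?_ (add_le_add ?_ ?_)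
  · refine ExE_le hw fun u => ?_
    refine (bad1_weight A hU N hiii K n e u 1 (one_mem _)).trans ?_
    rw [hQ₁, ENNReal.ofReal_mul (by positivity), ENNReal.ofReal_natCast]
    gcongr
    exact cnt_le he k
  · refine (bad2_weight w hw A hU hsh N hs hρ hρ1
      (D := C * ((N : ℝ) + 2) ^ (4 : ℕ)) (by positivity) e
      (fun a ha n => (hch N M hN₀ hNM e he n a ha).2) (hi R hR1) K n).trans ?_
    rw [← ENNReal.ofReal_mul (by positivity)]
    apply ENNReal.ofReal_le_ofReal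
    have h1 : R ^ 8 * ρ ^ K ≤ Real.exp (-(Real.log 2 * N)) := by
      have e1 : R ^ 8 * ρ ^ K = (L₀ ^ 16 * ρ ^ k) ^ M := by
        rw [hR, hK, mul_pow, ← pow_mul, ← pow_mul, ← pow_mul]
        congr 2
        ring
      have e2 : Real.exp (-(Real.log 2 * N)) = (1 / 2 : ℝ) ^ N := by
        rw [Real.exp_neg, mul_comm, Real.exp_nat_mul, Real.exp_log two_pos, one_div, inv_pow]
      rw [e1, e2]
      calc (L₀ ^ 16 * ρ ^ k) ^ M ≤ (1 / 2 : ℝ) ^ M :=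
            pow_le_pow_left₀ (by positivity) hk M
        _ ≤ (1 / 2 : ℝ) ^ N := pow_le_pow_of_le_one (by norm_num) (by norm_num) hNM
    calc Cr * R ^ 8 * (C * ((N : ℝ) + 2) ^ 4 * ρ ^ K / (1 - ρ))
        = Cr * C / (1 - ρ) * (((N : ℝ) + 2) ^ 4 * (R ^ 8 * ρ ^ K)) := by ring
      _ ≤ Cr * C / (1 - ρ) * (((N : ℝ) + 2) ^ 4 * Real.exp (-(Real.log 2 * N))) := by gcongr
      _ ≤ Cr * C / (1 - ρ) * B₁ := by gcongr; exact hB₁' N
  · have hbad := bad3_weight w hw A hU N (Y := (K : ℝ) + 1) (T := N / (2 * C₁) - 2) (M := M)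
      (C := ENNReal.ofReal Cr) (B := ENNReal.ofReal (Cr * ((K : ℝ) + 1) ^ 8) *
        ENNReal.ofReal (2 * Real.exp (-(c * (N / (2 * C₁) - 2))))) hii
      (fun n e he => large_weight w hw A N hc (fun e he a ha n => (hch N M hN₀ hNM e he n a ha).1)
        (hi _ (by
          have : (0 : ℝ) ≤ K := Nat.cast_nonneg K
          linarith)) n e he) K n e he 1 (one_mem _)
    refine hbad.trans ?_
    rw [← ENNReal.ofReal_mul (by positivity), ← ENNReal.ofReal_mul (by positivity),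
      ← ENNReal.ofReal_natCast, ← ENNReal.ofReal_mul (by positivity)]
    apply ENNReal.ofReal_le_ofReal
    have e1 : Real.exp (-(c * (N / (2 * C₁) - 2))) = Real.exp (2 * c) * Real.exp (-(α * N)) := by
      rw [← Real.exp_add, hα]
      congr 1
      field_simp
      ring
    have hKle : (K : ℝ) + 1 ≤ ((k : ℝ) + 1) * ((N : ℝ) + 2) ^ b := by
      have h1 : (M : ℝ) ≤ ((N : ℝ) + 2) ^ b := by
        rw [hM]
        push_cast
        gcongr
        linarith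
      have h2 : (1 : ℝ) ≤ ((N : ℝ) + 2) ^ b := one_le_pow₀ (by
        have : (0 : ℝ) ≤ N := Nat.cast_nonneg N
        linarith)
      have h3 : (K : ℝ) = k * M := by rw [hK]; push_cast; ring
      rw [h3]
      nlinarith [Nat.cast_nonneg (α := ℝ) k]
    rw [e1]
    calc (K : ℝ) * (Cr * (Cr * ((K : ℝ) + 1) ^ 8 * (2 * (Real.exp (2 * c) * Real.exp (-(α * N))))))
        ≤ ((K : ℝ) + 1) * (Cr * (Cr * ((K : ℝ) + 1) ^ 8 *
          (2 * (Real.exp (2 * c) * Real.exp (-(α * N)))))) := by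
          gcongr
          linarith
      _ = Cr * Cr * 2 * Real.exp (2 * c) * (((K : ℝ) + 1) ^ 9 * Real.exp (-(α * N))) := by ring
      _ ≤ Cr * Cr * 2 * Real.exp (2 * c) * ((((k : ℝ) + 1) * ((N : ℝ) + 2) ^ b) ^ 9 *
          Real.exp (-(α * N))) := by gcongr
      _ = Cr * Cr * 2 * Real.exp (2 * c) * ((k : ℝ) + 1) ^ 9 *
          (((N : ℝ) + 2) ^ (9 * b) * Real.exp (-(α * N))) := by
          rw [mul_pow, ← pow_mul, mul_comm b 9]
          ring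
      _ ≤ Cr * Cr * 2 * Real.exp (2 * c) * ((k : ℝ) + 1) ^ 9 * B₂ := by gcongr; exact hB₂' N

end

end Pool.Agent.Helper97.Fuchs
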