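import Pool.Agent.Helper30.Fuchs.Dec3

/-!
# Decoding the insertion: the decoding density
-/

namespace Pool.Agent.Helper97.Fuchs

open MeasureTheory Matrix UpperHalfPlane Filter Topology
open scoped MatrixGroups ENNReal BigOperators

noncomputable section

set_option linter.unusedSectionVars false
set_option linter.unusedVariables false

variable {ι : Type} [Fintype ι]

/-! ### words and insertions -/

lemma wordIns_last (A : ι → SL(2, ℝ)) (N : ℝ) (t : ℕ) (e : ℕ → Bool) (he : ∀ k < t, e k = false)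
    (he' : e t = true) (u : Fin (t + 1) → ι) :
    wordIns A N (t + 1) e u = word A u * U N := by
  induction t generalizing e with
  | zero =>
    rw [wordIns, word_succ, he']
    simp [wordIns]
  | succ t ih =>
    rw [wordIns, word_succ, he 0 (by omega),
      ih (fun k => e (k + 1)) (fun k hk => he (k + 1) (by omega)) he']
    simp [mul_assoc]

lemma word_inv (A : ι → SL(2, ℝ)) {n : ℕ} (u : Fin n → ι) :
    (word A u)⁻¹ = word (fun i => (A i)⁻¹) (fun k => u k.rev) := by
  induction n with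
  | zero => simp
  | succ n ih =>
    rw [word_succ, _root_.mul_inv_rev, ih]
    have h1 : (fun k : Fin (n + 1) => u k.rev) =
        Fin.append (fun k : Fin n => u k.rev.succ) (fun _ : Fin 1 => u 0) := by
      funext k
      refine Fin.addCases (fun i => ?_) (fun i => ?_) k
      · rw [Fin.append_left]
        congr 1
        ext
        simp [Fin.rev]
        omega
      · rw [Fin.append_right]
        congr 1
        ext
        simp [Fin.rev]
    rw [h1, word_append]
    congr 1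
    rw [word_succ]
    simp

lemma hits_false (A : ι → SL(2, ℝ)) (N : ℝ) (n : ℕ) (u : Fin n → ι) (a : SL(2, ℝ)) :
    hits A N n (fun _ => false) u a = 0 := by
  induction n generalizing a with
  | zero => simp [hits]
  | succ n ih => simp only [hits]; rw [ih]; simp

lemma rp_U_mul (x : ℝ) (g : SL(2, ℝ)) : rp (U x * g) = x + rp g := by
  have hd : g 1 0 ^ 2 + g 1 1 ^ 2 ≠ 0 := by
    intro h0
    have h1 : g 1 0 = 0 := by nlinarith [sq_nonneg (g 1 0), sq_nonneg (g 1 1)]
    have h2 : g 1 1 = 0 := by nlinarith [sq_nonneg (g 1 0), sq_nonneg (g 1 1)]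
    have := det_eq g
    rw [h1, h2] at this
    simp at this
  unfold rp
  simp only [mul_apply', U_00, U_01, U_10, U_11, zero_mul, one_mul, zero_add]
  generalize g 0 0 = p at *
  generalize g 0 1 = q at *
  generalize g 1 0 = r at *
  generalize g 1 1 = t at *
  field_simp
  ring

@[simp] lemma rp_one : rp 1 = 0 := by simp [rp]

lemma sparse_false (M : ℕ) : Sparse M (fun _ => false) := by
  intro m
  simp

lemma nrm_word_le (A : ι → SL(2, ℝ)) {L₀ : ℝ} (hL : ∀ i, nrm (A i) ≤ L₀) (hL1 : 1 ≤ L₀) {n : ℕ}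
    (hn : 1 ≤ n) (u : Fin n → ι) : nrm (word A u) ≤ L₀ ^ n := by
  obtain ⟨n, rfl⟩ : ∃ m, n = m + 1 := ⟨n - 1, by omega⟩
  clear hn
  induction n with
  | zero =>
    rw [word_succ]
    simpa using hL (u 0)
  | succ n ih =>
    rw [word_succ]
    refine (nrm_mul_le _ _).trans ?_
    rw [pow_succ' L₀ (n + 1)]
    exact mul_le_mul (hL _) (ih _) (nrm_nonneg _) (by linarith)

/-- exponential moment of the horizontal displacement of the inverse walk -/
lemma exp_rp_inv (w : ι → ℝ) (hw : IsWt w) (A : ι → SL(2, ℝ)) {C₁ c : ℝ} (hC₁ : 1 ≤ C₁)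
    (hc : 0 < c)
    (hdisp : ∀ (N n : ℕ) (e : ℕ → Bool) (u : Fin n → ι), ∀ a ∈ grp (fun i => (A i)⁻¹),
      |rp (a⁻¹ * wordIns (fun i => (A i)⁻¹) N n e u) - rp a⁻¹ -
        N * hits (fun i => (A i)⁻¹) N n e u a|
        ≤ C₁ * Sx (fun i => (A i)⁻¹) N n e u (lin a 1))
    (hch : ∃ N : ℕ, ∀ n : ℕ, Ex w n (fun u => Real.exp (c *
      Sx (fun i => (A i)⁻¹) N n (fun _ => false) u (lin 1 1))) ≤ 2) (t : ℕ) :
    Ex w t (fun u => Real.exp (c / C₁ * |rp (word A u)⁻¹|)) ≤ 2 := by
  obtain ⟨N, hN⟩ := hch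
  simp only [word_inv]
  rw [Ex_rev w (fun v => Real.exp (c / C₁ * |rp (word (fun i => (A i)⁻¹) v)|))]
  refine (Ex_mono hw.nonneg fun u => ?_).trans (hN t)
  apply Real.exp_le_exp.2
  have h1 := hdisp N t (fun _ => false) u 1 (one_mem _)
  rw [hits_false, inv_one, one_mul, rp_one, wordIns_false _ _ _ _ (fun _ _ => rfl)] at h1
  simp only [Nat.cast_zero, mul_zero, sub_zero] at h1
  calc c / C₁ * |rp (word (fun i => (A i)⁻¹) u)|
      ≤ c / C₁ * (C₁ * Sx (fun i => (A i)⁻¹) N t (fun _ => false) u (lin 1 1)) := by gcongr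
    _ = c * Sx (fun i => (A i)⁻¹) N t (fun _ => false) u (lin 1 1) := by
        field_simp

/-! ### the density -/

/-- the decoding density -/
def dens (A : ι → SL(2, ℝ)) (R N : ℝ) (a X : SL(2, ℝ)) : ℝ :=
  open Classical in if a ∈ grp A then
    (if Reg R N X a then om a / (ZE A R N X).toReal else 0) / 2 +
      nrm a ^ (-(2 * (5 : ℝ))) / (2 * ∑' g : grp A, nrm (g : SL(2, ℝ)) ^ (-(2 * (5 : ℝ))))
  else 0

lemma om_pos (a : SL(2, ℝ)) : 0 < om a := by unfold om; positivity

lemma S_pos {Γ : Subgroup SL(2, ℝ)}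
    (hsum : Summable fun g : Γ => nrm (g : SL(2, ℝ)) ^ (-(2 * (5 : ℝ)))) :
    0 < ∑' g : Γ, nrm (g : SL(2, ℝ)) ^ (-(2 * (5 : ℝ))) :=
  hsum.tsum_pos (fun g => Real.rpow_nonneg (nrm_nonneg _) _) 1
    (Real.rpow_pos_of_pos (nrm_pos _) _)

section
variable {A : ι → SL(2, ℝ)} {R N : ℝ}
    (hsum : Summable fun g : grp A => nrm (g : SL(2, ℝ)) ^ (-(2 * (5 : ℝ))))
    (hfin : ∀ X, ZE A R N X ≠ ⊤)
include hsum

lemma dens_nonneg (a X : SL(2, ℝ)) : 0 ≤ dens A R N a X := by
  unfold dens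
  have h1 := S_pos hsum
  have h2 := om_pos a
  have h3 : 0 ≤ nrm a ^ (-(2 * (5 : ℝ))) := Real.rpow_nonneg (nrm_nonneg _) _
  have h4 : 0 ≤ (ZE A R N X).toReal := ENNReal.toReal_nonneg
  split_ifs <;> positivity

lemma dens_pos (a X : SL(2, ℝ)) (ha : a ∈ grp A) : 0 < dens A R N a X := by
  unfold dens
  have h1 := S_pos hsum
  have h2 := om_pos a
  have h3 : 0 < nrm a ^ (-(2 * (5 : ℝ))) := Real.rpow_pos_of_pos (nrm_pos _) _
  have h4 : 0 ≤ (ZE A R N X).toReal := ENNReal.toReal_nonneg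
  rw [if_pos ha]
  split_ifs <;> positivity

include hfin

lemma dens_sum (X : SL(2, ℝ)) (s : Finset SL(2, ℝ)) (hs : ∀ a ∈ s, a ∈ grp A) :
    ∑ a ∈ s, dens A R N a X ≤ 1 := by
  classical
  have h1 := S_pos hsum
  have hZ : ∑ a ∈ s, (if Reg R N X a then om a else 0) ≤ (ZE A R N X).toReal := by
    rw [← ENNReal.ofReal_le_ofReal_iff ENNReal.toReal_nonneg, ENNReal.ofReal_toReal (hfin X),
      ENNReal.ofReal_sum_of_nonneg fun a _ => by
        have := om_pos a
        split_ifs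
        · exact this.le
        · exact le_rfl]
    rw [← Finset.sum_subtype_of_mem (p := fun a => a ∈ grp A)
      (fun a => ENNReal.ofReal (if Reg R N X a then om a else 0)) hs]
    unfold ZE
    refine le_trans (le_of_eq ?_) (ENNReal.sum_le_tsum (s.subtype fun a => a ∈ grp A))
    refine Finset.sum_congr rfl fun a _ => ?_
    split_ifs <;> simp
  have hS : ∑ a ∈ s, nrm a ^ (-(2 * (5 : ℝ))) ≤
      ∑' g : grp A, nrm (g : SL(2, ℝ)) ^ (-(2 * (5 : ℝ))) := by
    rw [← Finset.sum_subtype_of_mem (p := fun a => a ∈ grp A)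
      (fun a => nrm a ^ (-(2 * (5 : ℝ)))) hs]
    exact hsum.sum_le_tsum _ fun g _ => Real.rpow_nonneg (nrm_nonneg _) _
  have e1 : ∑ a ∈ s, dens A R N a X =
      (∑ a ∈ s, (if Reg R N X a then om a else 0)) / (ZE A R N X).toReal / 2 +
      (∑ a ∈ s, nrm a ^ (-(2 * (5 : ℝ)))) /
        (2 * ∑' g : grp A, nrm (g : SL(2, ℝ)) ^ (-(2 * (5 : ℝ)))) := by
    rw [Finset.sum_div, Finset.sum_div, Finset.sum_div, ← Finset.sum_add_distrib]
    refine Finset.sum_congr rfl fun a ha => ?_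
    unfold dens
    rw [if_pos (hs a ha)]
    split_ifs <;> simp
  rw [e1]
  have h2 : (∑ a ∈ s, (if Reg R N X a then om a else 0)) / (ZE A R N X).toReal ≤ 1 :=
    div_le_one_of_le₀ hZ ENNReal.toReal_nonneg
  have h3 : (∑ a ∈ s, nrm a ^ (-(2 * (5 : ℝ)))) /
        (2 * ∑' g : grp A, nrm (g : SL(2, ℝ)) ^ (-(2 * (5 : ℝ)))) ≤ 1 / 2 := by
    rw [div_le_div_iff₀ (by positivity) two_pos]
    linarith
  linarith

/-- pointwise bound for the cost -/
lemma neg_log_dens (a X : SL(2, ℝ)) (ha : a ∈ grp A) {P : ℝ} (hP : Real.log (nrm a) ≤ P)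
    (hP0 : 0 ≤ P) {θ : ℝ} (hθ0 : 0 ≤ θ) (hθ : ¬ Reg R N X a → 1 ≤ θ) :
    -Real.log (dens A R N a X) ≤
      (1 + |Real.log (∑' g : grp A, nrm (g : SL(2, ℝ)) ^ (-(2 * (5 : ℝ))))|) +
        (ZE A R N X).toReal + 2 * |rp a⁻¹| + 10 * P * θ := by
  classical
  have h1 := S_pos hsum
  set S := ∑' g : grp A, nrm (g : SL(2, ℝ)) ^ (-(2 * (5 : ℝ))) with hS
  have h2 := om_pos a
  have h3 : 0 < nrm a ^ (-(2 * (5 : ℝ))) := Real.rpow_pos_of_pos (nrm_pos _) _
  have h4 : 0 ≤ (ZE A R N X).toReal := ENNReal.toReal_nonneg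
  have hlog2 : Real.log 2 ≤ 1 := by
    have := Real.log_two_lt_d9
    linarith
  have h5 : 0 ≤ |rp a⁻¹| := abs_nonneg _
  have h6 : 0 ≤ 10 * P * θ := by positivity
  by_cases hr : Reg R N X a
  · have hZ : om a ≤ (ZE A R N X).toReal := by
      rw [← ENNReal.ofReal_le_ofReal_iff ENNReal.toReal_nonneg, ENNReal.ofReal_toReal (hfin X)]
      unfold ZE
      refine le_trans (le_of_eq ?_) (ENNReal.le_tsum (⟨a, ha⟩ : grp A))
      simp [hr]
    have hZ0 : 0 < (ZE A R N X).toReal := h2.trans_le hZ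
    have h7 : om a / (ZE A R N X).toReal / 2 ≤ dens A R N a X := by
      unfold dens
      rw [if_pos ha, if_pos hr, ← hS]
      have : 0 ≤ nrm a ^ (-(2 * (5 : ℝ))) / (2 * S) := by positivity
      linarith
    have h8 := Real.log_le_log (by positivity) h7
    rw [Real.log_div (by positivity) two_ne_zero, Real.log_div (by positivity) (by positivity)]
      at h8
    have h9 : Real.log (ZE A R N X).toReal ≤ (ZE A R N X).toReal := Real.log_le_self h4
    have h10 : -Real.log (om a) ≤ 2 * |rp a⁻¹| := by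
      unfold om
      rw [one_div, Real.log_inv, Real.log_pow, neg_neg]
      push_cast
      have := Real.log_le_sub_one_of_pos (show 0 < 1 + |rp a⁻¹| by positivity)
      linarith
    have h11 : 0 ≤ |Real.log S| := abs_nonneg _
    linarith
  · have h7 : nrm a ^ (-(2 * (5 : ℝ))) / (2 * S) ≤ dens A R N a X := by
      unfold dens
      rw [if_pos ha, if_neg hr, ← hS]
      simp
    have h8 := Real.log_le_log (by positivity) h7
    rw [Real.log_div (by positivity) (by positivity), Real.log_mul two_ne_zero h1.ne',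
      Real.log_rpow (nrm_pos _)] at h8
    have h9 : Real.log S ≤ |Real.log S| := le_abs_self _
    have h10 : 10 * P ≤ 10 * P * θ := by
      have := hθ hr
      nlinarith
    linarith

end

end

end Pool.Agent.Helper97.Fuchs
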