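import Pool.Agent.Helper30.Fuchs.Dec4

/-!
# Decoding the insertion: the main estimate (with the other modules as hypotheses)
-/

namespace Pool.Agent.Helper97.Fuchs

open MeasureTheory Matrix UpperHalfPlane Filter Topology
open scoped MatrixGroups ENNReal BigOperators

noncomputable section

set_option linter.unusedSectionVars false
set_option linter.unusedVariables false

variable {ι : Type} [Fintype ι]

lemma castLE_append {t m : ℕ} (u₁ : Fin t → ι) (u₂ : Fin m → ι) (h : t ≤ t + m) :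
    (fun j : Fin t => Fin.append u₁ u₂ (Fin.castLE h j)) = u₁ := by
  funext j
  have : Fin.castLE h j = Fin.castAdd m j := rfl
  rw [this, Fin.append_left]

theorem decode_of (w : ι → ℝ) (A : ι → SL(2, ℝ)) (hw : IsWt w) (hU : U 1 ∈ grp A) (b : ℕ)
    (hb : 1 ≤ b)
    (hsh : ∀ g ∈ grp A, (g 1 0 = 0 ∧ |g 0 0| = 1) ∨ 1 ≤ |g 1 0|)
    (hsum : Summable fun g : grp A => nrm (g : SL(2, ℝ)) ^ (-(2 * (5 : ℝ))))
    (hdA : ∃ C₁ : ℝ, 1 ≤ C₁ ∧ ∀ (N n : ℕ) (e : ℕ → Bool) (u : Fin n → ι), ∀ a ∈ grp A,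
      |rp (a⁻¹ * wordIns A N n e u) - rp a⁻¹ - N * hits A N n e u a|
        ≤ C₁ * Sx A N n e u (lin a 1))
    (hdB : ∃ C₁ : ℝ, 1 ≤ C₁ ∧ ∀ (N n : ℕ) (e : ℕ → Bool) (u : Fin n → ι),
      ∀ a ∈ grp (fun i => (A i)⁻¹),
      |rp (a⁻¹ * wordIns (fun i => (A i)⁻¹) N n e u) - rp a⁻¹ -
        N * hits (fun i => (A i)⁻¹) N n e u a|
        ≤ C₁ * Sx (fun i => (A i)⁻¹) N n e u (lin a 1))
    (hcA : ∃ c C s ρ : ℝ, ∃ N₀ : ℕ, 0 < c ∧ 1 ≤ C ∧ 0 < s ∧ s ≤ 1 ∧ 0 < ρ ∧ ρ < 1 ∧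
      ∀ N M : ℕ, N₀ ≤ N → N ≤ M → ∀ e : ℕ → Bool, Sparse M e → ∀ n : ℕ, ∀ g ∈ grp A,
        Ex w n (fun u => Real.exp (c * Sx A N n e u (lin g 1))) ≤ 2 ∧
        Ex w n (fun u => ‖lin (wordIns A N n e u)⁻¹ (lin g 1)‖ ^ (-s))
          ≤ C * ((N : ℝ) + 2) ^ (4 : ℕ) * ρ ^ n)
    (hcB : ∃ c C s ρ : ℝ, ∃ N₀ : ℕ, 0 < c ∧ 1 ≤ C ∧ 0 < s ∧ s ≤ 1 ∧ 0 < ρ ∧ ρ < 1 ∧
      ∀ N M : ℕ, N₀ ≤ N → N ≤ M → ∀ e : ℕ → Bool, Sparse M e → ∀ n : ℕ,
        ∀ g ∈ grp (fun i => (A i)⁻¹),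
        Ex w n (fun u => Real.exp (c * Sx (fun i => (A i)⁻¹) N n e u (lin g 1))) ≤ 2 ∧
        Ex w n (fun u => ‖lin (wordIns (fun i => (A i)⁻¹) N n e u)⁻¹ (lin g 1)‖ ^ (-s))
          ≤ C * ((N : ℝ) + 2) ^ (4 : ℕ) * ρ ^ n)
    (hcount : ∃ C : ℝ, 1 ≤ C ∧
      (∀ R : ℝ, 1 ≤ R → (∑' a : grp A, open Classical in
        if ‖lin (a : SL(2, ℝ)) 1‖ ≤ R then ENNReal.ofReal (om (a : SL(2, ℝ))) else 0)
          ≤ ENNReal.ofReal (C * R ^ 8)) ∧
      (∀ g ∈ grp A, ∀ H : ℂ → ℝ≥0∞,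
        ∑' a : grp A, ENNReal.ofReal (om (a : SL(2, ℝ))) * H (lin (g⁻¹ * (a : SL(2, ℝ))) 1)
          ≤ ENNReal.ofReal C * ∑' a : grp A, ENNReal.ofReal (om (a : SL(2, ℝ))) *
              H (lin (a : SL(2, ℝ)) 1)) ∧
      (∀ g ∈ grp A, (∑' a : grp A, open Classical in
        if ((a : SL(2, ℝ))⁻¹ * g) 1 0 = 0 then ENNReal.ofReal (om (a : SL(2, ℝ))) else 0)
          ≤ ENNReal.ofReal C)) :
    ∃ C₀ : ℝ, ∃ N₀ : ℕ, ∀ N : ℕ, N₀ ≤ N → ∃ q : SL(2, ℝ) → SL(2, ℝ) → ℝ,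
      (∀ a X, 0 ≤ q a X) ∧ (∀ a ∈ grp A, ∀ X ∈ grp A, 0 < q a X) ∧
      (∀ X ∈ grp A, ∀ s : Finset SL(2, ℝ), (∀ a ∈ s, a ∈ grp A) → ∑ a ∈ s, q a X ≤ 1) ∧
      ∀ (n t : ℕ) (htn : t ≤ n) (e : ℕ → Bool), 1 ≤ t → t ≤ 2 * N ^ b →
        (∀ k < t - 1, e k = false) → e (t - 1) = true → Sparse (N ^ b) e →
        Ex w n (fun u => -Real.log (q (word A fun j : Fin t => u (Fin.castLE htn j))
          (wordIns A N n e u))) ≤ C₀ := by
  classical
  obtain ⟨C₁, hC₁, hdA⟩ := hdA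
  obtain ⟨C₂, hC₂, hdB⟩ := hdB
  obtain ⟨c, C, s, ρ, N₁, hc, hC, hs0, hs, hρ, hρ1, hcA⟩ := hcA
  obtain ⟨c', C', s', ρ', N₂, hc', hC', hs0', hs', hρ', hρ1', hcB⟩ := hcB
  obtain ⟨Cr, hCr, hi, hii, hiii⟩ := hcount
  set L₀ : ℝ := 1 + ∑ i, nrm (A i) with hL₀
  have hLi : ∀ i, nrm (A i) ≤ L₀ := by
    intro i
    have := Finset.single_le_sum (f := fun i => nrm (A i)) (fun i _ => nrm_nonneg (A i))
      (Finset.mem_univ i)
    rw [hL₀]
    linarith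
  have hL1 : 1 ≤ L₀ := by
    have : 0 ≤ ∑ i, nrm (A i) := Finset.sum_nonneg fun i _ => nrm_nonneg (A i)
    rw [hL₀]
    linarith
  have hlogL : 0 ≤ Real.log L₀ := Real.log_nonneg hL1
  obtain ⟨B, hB, N₃, hEZ⟩ := EZ_bdd w hw A hU hsh hC₁ hdA hc hC hs hρ hρ1 hcA hCr hi hii hiii L₀
    hL1 b hb
  have hrpB : ∀ t, Ex w t (fun u => Real.exp (c' / C₂ * |rp (word A u)⁻¹|)) ≤ 2 := by
    refine exp_rp_inv w hw A hC₂ hc' hdB ⟨N₂, fun n => ?_⟩
    exact (hcB N₂ N₂ le_rfl le_rfl (fun _ => false) (sparse_false _) n 1 (one_mem _)).1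
  set κ : ℝ := min (c' / C₂) (c / C₁) with hκ
  have hκ0 : 0 < κ := lt_min (by positivity) (by positivity)
  have hκ1 : κ ≤ c' / C₂ := min_le_left _ _
  have hκ2 : κ * C₁ ≤ c := by
    have := min_le_right (c' / C₂) (c / C₁)
    rwa [le_div_iff₀ (by linarith)] at this
  have hE1 : ∀ t, Ex w t (fun u => Real.exp (κ * |rp (word A u)⁻¹|)) ≤ 2 := fun t =>
    (Ex_mono hw.nonneg fun u => Real.exp_le_exp.2
      (mul_le_mul_of_nonneg_right hκ1 (abs_nonneg _))).trans (hrpB t)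
  obtain ⟨B₃, hB₃, hB₃'⟩ := poly_exp_bdd b (show 0 < κ / 2 by positivity)
  set S := ∑' g : grp A, nrm (g : SL(2, ℝ)) ^ (-(2 * (5 : ℝ))) with hS
  refine ⟨(1 + |Real.log S|) + B + 4 / κ + 80 * Real.log L₀ * B₃, max (max N₁ N₃) 1,
    fun N hN => ?_⟩
  have hN₁ : N₁ ≤ N := (le_max_left _ _).trans ((le_max_left _ _).trans hN)
  have hN₃ : N₃ ≤ N := (le_max_right _ _).trans ((le_max_left _ _).trans hN)
  have hN1 : 1 ≤ N := (le_max_right _ _).trans hN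
  set M := N ^ b with hM
  have hNM : N ≤ M := by
    calc N = N ^ 1 := (pow_one N).symm
      _ ≤ N ^ b := Nat.pow_le_pow_right hN1 hb
  set R : ℝ := L₀ ^ (2 * M) with hR
  have hR1 : 1 ≤ R := one_le_pow₀ hL1
  have hfin : ∀ X, ZE A R N X ≠ ⊤ := by
    intro X
    refine ne_top_of_le_ne_top (ENNReal.ofReal_ne_top (r := Cr * R ^ 8))
      (le_trans (ENNReal.tsum_le_tsum fun a => ite_mono_prop (fun h => h.1) _) (hi R hR1))
  refine ⟨dens A R N, dens_nonneg hsum, fun a ha X _ => dens_pos hsum a X ha,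
    fun X _ s hs => dens_sum hsum hfin X s hs, ?_⟩
  intro n t htn e ht1 htM he0 he1 hsp
  obtain ⟨m, rfl⟩ : ∃ m, n = t + m := ⟨n - t, by omega⟩
  obtain ⟨t', rfl⟩ : ∃ t', t = t' + 1 := ⟨t - 1, by omega⟩
  simp only [Nat.add_sub_cancel] at he0 he1
  set e' : ℕ → Bool := fun k => e (t' + 1 + k) with he'
  have hsp' : Sparse M e' := hsp.shift (t' + 1)
  have hE2 : Ex w m (fun u => Real.exp (κ * (C₁ * Sx A N m e' u (lin 1 1)))) ≤ 2 := by
    refine (Ex_mono hw.nonneg fun u => Real.exp_le_exp.2 ?_).trans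
      (hcA N M hN₁ hNM e' hsp' m 1 (one_mem _)).1
    rw [← mul_assoc]
    exact mul_le_mul_of_nonneg_right hκ2 (Sx_nonneg ..)
  set P : ℝ := 2 * M * Real.log L₀ with hP
  have hP0 : 0 ≤ P := by positivity
  -- the pointwise bound
  have hpt : ∀ (u₁ : Fin (t' + 1) → ι) (u₂ : Fin m → ι),
      -Real.log (dens A R N (word A fun j : Fin (t' + 1) =>
        Fin.append u₁ u₂ (Fin.castLE htn j)) (wordIns A N (t' + 1 + m) e (Fin.append u₁ u₂))) ≤
      ((1 + |Real.log S|) + (ZE A R N (wordIns A N (t' + 1 + m) e (Fin.append u₁ u₂))).toReal +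
        2 * |rp (word A u₁)⁻¹|) +
        (10 * P * Real.exp (-(κ / 2 * N))) * (Real.exp (κ * |rp (word A u₁)⁻¹|) *
          Real.exp (κ * (C₁ * Sx A N m e' u₂ (lin 1 1)))) := by
    intro u₁ u₂
    rw [castLE_append]
    have hnr : nrm (word A u₁) ≤ L₀ ^ (2 * M) :=
      (nrm_word_le A hLi hL1 (by omega) u₁).trans (pow_le_pow_right₀ hL1 htM)
    have h1 : Real.log (nrm (word A u₁)) ≤ P := by
      refine (Real.log_le_log (nrm_pos _) hnr).trans ?_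
      rw [Real.log_pow, hP]
      push_cast
      exact le_rfl
    have hθ : ¬ Reg R N (wordIns A N (t' + 1 + m) e (Fin.append u₁ u₂)) (word A u₁) →
        1 ≤ Real.exp (-(κ / 2 * N)) * (Real.exp (κ * |rp (word A u₁)⁻¹|) *
          Real.exp (κ * (C₁ * Sx A N m e' u₂ (lin 1 1)))) := by
      intro hr
      rw [← Real.exp_add, ← Real.exp_add]
      apply Real.one_le_exp
      have h2 : ‖lin (word A u₁) 1‖ ≤ R := by
        have := norm_lin_le (word A u₁) 1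
        rw [norm_one, mul_one] at this
        exact this.trans hnr
      have h3 : |rp ((word A u₁)⁻¹ * wordIns A N (t' + 1 + m) e (Fin.append u₁ u₂)) -
          rp (word A u₁)⁻¹| < N / 2 := by
        by_contra hcon
        exact hr ⟨h2, not_lt.1 hcon⟩
      have h4 : (word A u₁)⁻¹ * wordIns A N (t' + 1 + m) e (Fin.append u₁ u₂) =
          U N * wordIns A N m e' u₂ := by
        rw [wordIns_append, wordIns_last A N t' e he0 he1 u₁, mul_assoc, inv_mul_cancel_left]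
      rw [h4, rp_U_mul] at h3
      have h5 := hdA N m e' u₂ 1 (one_mem _)
      rw [inv_one, one_mul, rp_one, sub_zero] at h5
      have h6 : (0 : ℝ) ≤ N * hits A N m e' u₂ 1 := by positivity
      have h7 := (abs_le.1 h5).1
      have h8 := (abs_lt.1 h3).2
      have h9 : rp (word A u₁)⁻¹ ≤ |rp (word A u₁)⁻¹| := le_abs_self _
      have h10 : 0 ≤ -(N / 2 : ℝ) + |rp (word A u₁)⁻¹| + C₁ * Sx A N m e' u₂ (lin 1 1) := by
        linarith
      have h11 := mul_nonneg hκ0.le h10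
      linarith
    refine (neg_log_dens hsum hfin (word A u₁) _ (word_mem_grp A u₁) h1 hP0 (by positivity)
      hθ).trans (le_of_eq ?_)
    rw [← hS]
    ring
  -- taking expectations
  have hZ : Ex w (t' + 1 + m) (fun u => (ZE A R N (wordIns A N (t' + 1 + m) e u)).toReal) ≤ B := by
    rw [← ENNReal.ofReal_le_ofReal_iff hB, ← ExE_ofReal hw.nonneg _ fun u =>
      ENNReal.toReal_nonneg]
    refine (ExE_mono w fun u => ?_).trans (hEZ N hN₃ e hsp (t' + 1 + m))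
    exact ENNReal.ofReal_toReal_le
  have hrp : Ex w (t' + 1) (fun u => 2 * |rp (word A u)⁻¹|) ≤ 4 / κ := by
    have h1 : ∀ u : Fin (t' + 1) → ι, 2 * |rp (word A u)⁻¹| ≤
        2 / κ * Real.exp (κ * |rp (word A u)⁻¹|) := by
      intro u
      have h2 := Real.add_one_le_exp (κ * |rp (word A u)⁻¹|)
      rw [div_mul_eq_mul_div, le_div_iff₀ hκ0]
      linarith
    refine (Ex_mono hw.nonneg h1).trans ?_
    rw [Ex_mul_left]
    calc 2 / κ * Ex w (t' + 1) (fun u => Real.exp (κ * |rp (word A u)⁻¹|)) ≤ 2 / κ * 2 := by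
          gcongr
          exact hE1 _
      _ = 4 / κ := by ring
  have hprod : Ex w (t' + 1) (fun u₁ => Ex w m (fun u₂ =>
      (10 * P * Real.exp (-(κ / 2 * N))) * (Real.exp (κ * |rp (word A u₁)⁻¹|) *
          Real.exp (κ * (C₁ * Sx A N m e' u₂ (lin 1 1)))))) ≤ 80 * Real.log L₀ * B₃ := by
    have e1 : ∀ u₁ : Fin (t' + 1) → ι, Ex w m (fun u₂ =>
      (10 * P * Real.exp (-(κ / 2 * N))) * (Real.exp (κ * |rp (word A u₁)⁻¹|) *
          Real.exp (κ * (C₁ * Sx A N m e' u₂ (lin 1 1))))) =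
        (10 * P * Real.exp (-(κ / 2 * N)) *
          Ex w m (fun u₂ => Real.exp (κ * (C₁ * Sx A N m e' u₂ (lin 1 1))))) *
          Real.exp (κ * |rp (word A u₁)⁻¹|) := by
      intro u₁
      rw [Ex_mul_left, Ex_mul_left]
      ring
    rw [Ex_congr w e1, Ex_mul_left]
    have hMle : (M : ℝ) ≤ ((N : ℝ) + 2) ^ b := by
      rw [hM]
      push_cast
      gcongr
      linarith
    have h0 : 0 ≤ Ex w m (fun u₂ => Real.exp (κ * (C₁ * Sx A N m e' u₂ (lin 1 1)))) :=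
      Ex_nonneg hw.nonneg fun u => (Real.exp_pos _).le
    have h0' : 0 ≤ Ex w (t' + 1) (fun u => Real.exp (κ * |rp (word A u)⁻¹|)) :=
      Ex_nonneg hw.nonneg fun u => (Real.exp_pos _).le
    calc 10 * P * Real.exp (-(κ / 2 * N)) *
          Ex w m (fun u₂ => Real.exp (κ * (C₁ * Sx A N m e' u₂ (lin 1 1)))) *
          Ex w (t' + 1) (fun u => Real.exp (κ * |rp (word A u)⁻¹|))
        ≤ 10 * P * Real.exp (-(κ / 2 * N)) * 2 * 2 := by
          refine mul_le_mul ?_ (hE1 _) h0' (by positivity)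
          exact mul_le_mul_of_nonneg_left hE2 (by positivity)
      _ = 80 * Real.log L₀ * ((M : ℝ) * Real.exp (-(κ / 2 * N))) := by rw [hP]; ring
      _ ≤ 80 * Real.log L₀ * (((N : ℝ) + 2) ^ b * Real.exp (-(κ / 2 * N))) := by gcongr
      _ ≤ 80 * Real.log L₀ * B₃ := by gcongr; exact hB₃' N
  have hsplit := Ex_append w (t' + 1) m
    (fun u => (ZE A R N (wordIns A N (t' + 1 + m) e u)).toReal)
  rw [hsplit] at hZ
  rw [Ex_append]
  refine (Ex_mono hw.nonneg fun u₁ => Ex_mono hw.nonneg fun u₂ => hpt u₁ u₂).trans ?_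
  simp only [Ex_add, Ex_const hw.sum]
  linarith

end

end Pool.Agent.Helper97.Fuchs
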