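import Pool.Agent.Helper30.Fuchs.Dec5

/-!
# FU-D4 decode, with the black boxes as hypotheses
-/

namespace Pool.Agent.Helper97.Fuchs

open MeasureTheory Matrix UpperHalfPlane Filter Topology
open scoped MatrixGroups ENNReal BigOperators

noncomputable section

set_option linter.unusedSectionVars false
set_option linter.unusedVariables false

variable {ι : Type} [Fintype ι]

lemma grp_inv (A : ι → SL(2, ℝ)) : grp (fun i => (A i)⁻¹) = grp A := by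
  apply le_antisymm
  · refine (Subgroup.closure_le _).2 ?_
    rintro x (⟨i, rfl⟩ | hx)
    · exact inv_mem (mem_grp A i)
    · rw [Set.mem_singleton_iff] at hx
      rw [hx]
      exact neg_one_mem_grp A
  · refine (Subgroup.closure_le _).2 ?_
    rintro x (⟨i, rfl⟩ | hx)
    · have := inv_mem (mem_grp (fun i => (A i)⁻¹) i)
      rwa [inv_inv] at this
    · rw [Set.mem_singleton_iff] at hx
      rw [hx]
      exact neg_one_mem_grp _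

lemma noInv_inv {A : ι → SL(2, ℝ)} (h : NoInv A) : NoInv (fun i => (A i)⁻¹) := by
  intro η hη hinv
  refine h η hη fun i => ?_
  have h1 : (η.map (circ (A i)⁻¹)).map (circ (A i)) = η := by
    rw [Measure.map_map (measurable_circ _) (measurable_circ _)]
    have : circ (A i) ∘ circ (A i)⁻¹ = id := by
      funext z
      rw [Function.comp_apply, ← circ_mul, mul_inv_cancel, circ_one]
      rfl
    rw [this, Measure.map_id]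
  rwa [hinv i] at h1

theorem decode_glue
    (shimizu : ∀ {ε : ℝ} {Γ : Subgroup SL(2, ℝ)} (hd : Disc ε Γ) (hU : U 1 ∈ Γ),
      ∀ g ∈ Γ, (g 1 0 = 0 ∧ |g 0 0| = 1) ∨ 1 ≤ |g 1 0|)
    (disp : ∀ (A : ι → SL(2, ℝ)) {ε : ℝ} (hd : Disc ε (grp A)) (hU : U 1 ∈ grp A),
      ∃ C₁ : ℝ, 1 ≤ C₁ ∧ ∀ (N n : ℕ) (e : ℕ → Bool) (u : Fin n → ι), ∀ a ∈ grp A,
      |rp (a⁻¹ * wordIns A N n e u) - rp a⁻¹ - N * hits A N n e u a|
        ≤ C₁ * Sx A N n e u (lin a 1))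
    (chain_bounds : ∀ (w : ι → ℝ) (A : ι → SL(2, ℝ)) (hw : IsWt w) {ε : ℝ}
      (hd : Disc ε (grp A)) (hU : U 1 ∈ grp A) (hN : NoInv A),
      ∃ c C s ρ : ℝ, ∃ N₀ : ℕ, 0 < c ∧ 1 ≤ C ∧ 0 < s ∧ s ≤ 1 ∧ 0 < ρ ∧ ρ < 1 ∧
      ∀ N M : ℕ, N₀ ≤ N → N ≤ M → ∀ e : ℕ → Bool, Sparse M e → ∀ n : ℕ, ∀ g ∈ grp A,
        Ex w n (fun u => Real.exp (c * Sx A N n e u (lin g 1))) ≤ 2 ∧
        Ex w n (fun u => ‖lin (wordIns A N n e u)⁻¹ (lin g 1)‖ ^ (-s))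
          ≤ C * ((N : ℝ) + 2) ^ (4 : ℕ) * ρ ^ n)
    (count_region : ∀ {ε : ℝ} {Γ : Subgroup SL(2, ℝ)} (hd : Disc ε Γ) (hU : U 1 ∈ Γ),
      ∃ C : ℝ, 1 ≤ C ∧
      (∀ R : ℝ, 1 ≤ R → (∑' a : Γ, open Classical in
        if ‖lin (a : SL(2, ℝ)) 1‖ ≤ R then ENNReal.ofReal (om (a : SL(2, ℝ))) else 0)
          ≤ ENNReal.ofReal (C * R ^ 8)) ∧
      (∀ g ∈ Γ, ∀ H : ℂ → ℝ≥0∞,
        ∑' a : Γ, ENNReal.ofReal (om (a : SL(2, ℝ))) * H (lin (g⁻¹ * (a : SL(2, ℝ))) 1)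
          ≤ ENNReal.ofReal C * ∑' a : Γ, ENNReal.ofReal (om (a : SL(2, ℝ))) *
              H (lin (a : SL(2, ℝ)) 1)) ∧
      (∀ g ∈ Γ, (∑' a : Γ, open Classical in
        if ((a : SL(2, ℝ))⁻¹ * g) 1 0 = 0 then ENNReal.ofReal (om (a : SL(2, ℝ))) else 0)
          ≤ ENNReal.ofReal C))
    (summable_large : ∀ {ε : ℝ} {Γ : Subgroup SL(2, ℝ)} (hd : Disc ε Γ),
      Summable fun g : Γ => nrm (g : SL(2, ℝ)) ^ (-(2 * (5 : ℝ))))
    (w : ι → ℝ) (A : ι → SL(2, ℝ)) (hw : IsWt w) {ε : ℝ} (hd : Disc ε (grp A))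
    (hU : U 1 ∈ grp A) (hN : NoInv A) (b : ℕ) (hb : 1 ≤ b) :
    ∃ C₀ : ℝ, ∃ N₀ : ℕ, ∀ N : ℕ, N₀ ≤ N → ∃ q : SL(2, ℝ) → SL(2, ℝ) → ℝ,
      (∀ a X, 0 ≤ q a X) ∧ (∀ a ∈ grp A, ∀ X ∈ grp A, 0 < q a X) ∧
      (∀ X ∈ grp A, ∀ s : Finset SL(2, ℝ), (∀ a ∈ s, a ∈ grp A) → ∑ a ∈ s, q a X ≤ 1) ∧
      ∀ (n t : ℕ) (htn : t ≤ n) (e : ℕ → Bool), 1 ≤ t → t ≤ 2 * N ^ b →
        (∀ k < t - 1, e k = false) → e (t - 1) = true → Sparse (N ^ b) e →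
        Ex w n (fun u => -Real.log (q (word A fun j : Fin t => u (Fin.castLE htn j))
          (wordIns A N n e u))) ≤ C₀ := by
  have hgi := grp_inv A
  have hd' : Disc ε (grp (fun i => (A i)⁻¹)) := hgi ▸ hd
  have hU' : U 1 ∈ grp (fun i => (A i)⁻¹) := hgi ▸ hU
  exact decode_of w A hw hU b hb (shimizu hd hU) (summable_large hd) (disp A hd hU)
    (disp (fun i => (A i)⁻¹) hd' hU') (chain_bounds w A hw hd hU hN)
    (chain_bounds w (fun i => (A i)⁻¹) hw hd' hU' (noInv_inv hN)) (count_region hd hU)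

end

end Pool.Agent.Helper97.Fuchs
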